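import Mathlib
import Pool.Agent.W248.RG.Final
import Pool.Agent.W248.RG.Small
import Pool.Agent.W248.RG.Comb
import Pool.Agent.W686.RG.FAM

set_option autoImplicit false

namespace Pool.Agent.Results.MP_c709de_al.GrowthOrder

open MvPolynomial

/-- A numerical semigroup: an additive submonoid of the naturals with finite complement. -/
def IsNumericalSemigroup (G : AddSubmonoid ℕ) : Prop := {n : ℕ | n ∉ G}.Finite

/-- `g` lists the minimal generators of `G` in increasing order. -/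
def IsMinimalGenerators {k : ℕ} (G : AddSubmonoid ℕ) (g : Fin k → ℕ) : Prop :=
  StrictMono g ∧ AddSubmonoid.closure (Set.range g) = G ∧
    ∀ i : Fin k, g i ∉ AddSubmonoid.closure (g '' {j : Fin k | j ≠ i})

/-- The defining (toric) ideal of the semigroup ring of the semigroup generated by `g`:
the kernel of the map sending the `i`-th variable to `X ^ (g i)`. -/
noncomputable def toricIdeal {k : ℕ} (g : Fin k → ℕ) : Ideal (MvPolynomial (Fin k) ℚ) :=
  RingHom.ker (MvPolynomial.aeval (fun i : Fin k => (Polynomial.X : Polynomial ℚ) ^ (g i)))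

/-- The number of minimal relations: the least number of generators of the toric ideal. -/
noncomputable def numRelations {k : ℕ} (g : Fin k → ℕ) : ℕ∞ :=
  sInf {x : ℕ∞ | ∃ s : Finset (MvPolynomial (Fin k) ℚ),
    Ideal.span (s : Set (MvPolynomial (Fin k) ℚ)) = toricIdeal g ∧ x = (s.card : ℕ∞)}

/-- The supremum of the number of minimal relations over all numerical semigroups of embedding
dimension `e + 1` and multiplicity `m`. -/
noncomputable def maxRelations (e m : ℕ) : ℕ∞ :=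
  sSup {x : ℕ∞ | ∃ (G : AddSubmonoid ℕ) (g : Fin (e + 1) → ℕ), IsNumericalSemigroup G ∧
    IsMinimalGenerators G g ∧ g 0 = m ∧ x = numRelations g}

lemma cofinite_of_gcd {k : ℕ} (g : Fin k → ℕ) (h : Finset.univ.gcd g = 1) :
    IsNumericalSemigroup (AddSubmonoid.closure (Set.range g)) := by
  obtain ⟨n, hn⟩ := Nat.exists_mem_closure_of_ge (Set.range g)
  have h1 : Nat.setGcd (Set.range g) = 1 := by
    have : Nat.setGcd (Set.range g) ∣ Finset.univ.gcd g :=
      Finset.dvd_gcd (fun i _ => Nat.setGcd_dvd_of_mem (Set.mem_range_self i))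
    rw [h] at this
    exact Nat.dvd_one.mp this
  refine (Finset.range n).finite_toSet.subset ?_
  intro x hx
  rw [Finset.coe_range, Set.mem_Iio]
  by_contra hc
  exact hx (hn x (not_lt.mp hc) (by rw [h1]; exact one_dvd _))

/-- For every fixed `e ≥ 3` the maximal number of minimal relations of a numerical semigroup of
embedding dimension `e + 1` and multiplicity `m` has exact order of growth
`m ^ ((e - 2) / (e - 1))` as a function of `m > e`, and the upper bound holds with the explicit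
constant `1 + 2 ^ e + e * 3 ^ (e - 2)`. -/
theorem result : ∀ e : ℕ, 3 ≤ e → ∃ c : ℝ, 0 < c ∧ ∀ m : ℕ, e < m →
    ∃ R : ℕ, maxRelations e m = (R : ℕ∞) ∧
      c * (m : ℝ) ^ (((e : ℝ) - 2) / ((e : ℝ) - 1)) ≤ (R : ℝ) ∧
      (R : ℝ) ≤ (1 + 2 ^ e + e * 3 ^ (e - 2)) * (m : ℝ) ^ (((e : ℝ) - 2) / ((e : ℝ) - 1)) := by
  intro e he
  obtain ⟨n, rfl⟩ : ∃ n, e = n + 2 := ⟨e - 2, by omega⟩
  have hn : 1 ≤ n := by omega
  have hα : (((n + 2 : ℕ) : ℝ) - 2) / (((n + 2 : ℕ) : ℝ) - 1) = (n : ℝ) / ((n : ℝ) + 1) := by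
    push_cast
    congr 1 <;> ring
  have hnpos : (0 : ℝ) < (n : ℝ) := by exact_mod_cast (by omega : 0 < n)
  rw [hα]
  have e1 : n + 2 - 2 = n := by omega
  rw [e1]
  set α : ℝ := (n : ℝ) / ((n : ℝ) + 1) with hαdef
  have hα0 : 0 ≤ α := by positivity
  set K : ℝ := 1 + 2 ^ (n + 2) + ((n + 2 : ℕ) : ℝ) * 3 ^ n with hK
  have hKe : K = 1 + 2 ^ (n + 2) + (n + 2) * 3 ^ n := by
    rw [hK]
    push_cast
    ring
  -- the upper bound for every semigroup
  have hup : ∀ m : ℕ, 0 < m → ∀ x ∈ {x : ℕ∞ | ∃ (G : AddSubmonoid ℕ) (g : Fin (n + 2 + 1) → ℕ),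
      IsNumericalSemigroup G ∧ IsMinimalGenerators G g ∧ g 0 = m ∧ x = numRelations g},
      x ≤ ((⌊K * (m : ℝ) ^ α⌋₊ : ℕ) : ℕ∞) := by
    rintro m hm x ⟨G, g, -, ⟨hmono, -, -⟩, h0, rfl⟩
    have hpos : ∀ i, 0 < g i := by
      intro i
      have := hmono.monotone (Fin.zero_le i)
      omega
    obtain ⟨s, hs, hcard⟩ := Pool.Agent.W248.RG.upper_real Pool.Agent.W248.RG.comb n m hm g h0 hpos
    refine le_trans (sInf_le ⟨s, hs, rfl⟩) ?_
    rw [← hKe] at hcard
    have h := Nat.le_floor hcard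
    exact Nat.cast_le.mpr h
  have hfin : ∀ m : ℕ, 0 < m → ∃ R : ℕ, maxRelations (n + 2) m = (R : ℕ∞) ∧
      (R : ℝ) ≤ K * (m : ℝ) ^ α := by
    intro m hm
    have h1 : maxRelations (n + 2) m ≤ ((⌊K * (m : ℝ) ^ α⌋₊ : ℕ) : ℕ∞) := sSup_le (hup m hm)
    have h2 : maxRelations (n + 2) m ≠ ⊤ := by
      intro h
      rw [h, top_le_iff] at h1
      exact ENat.natCast_ne_top _ h1
    obtain ⟨R, hR⟩ := ENat.ne_top_iff_exists.mp h2
    refine ⟨R, hR.symm, ?_⟩
    rw [← hR] at h1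
    have h3 : R ≤ ⌊K * (m : ℝ) ^ α⌋₊ := by exact_mod_cast h1
    exact (Nat.le_floor_iff (by positivity)).mp h3
  -- from one semigroup to the supremum
  have hlow : ∀ (m R : ℕ) (x : ℝ), 0 < m → maxRelations (n + 2) m = (R : ℕ∞) →
      (∃ g : Fin (n + 3) → ℕ, StrictMono g ∧ g 0 = m ∧ Finset.univ.gcd g = 1 ∧
        (∀ i : Fin (n + 3), g i ∉ AddSubmonoid.closure (g '' {j : Fin (n + 3) | j ≠ i})) ∧
        ∀ s : Finset (MvPolynomial (Fin (n + 3)) ℚ),
          Ideal.span (s : Set (MvPolynomial (Fin (n + 3)) ℚ)) = Pool.Agent.W248.RG.tor g →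
            x ≤ (s.card : ℝ)) → x ≤ (R : ℝ) := by
    rintro m R x hm0 hR ⟨g, h1, h2, h3, h4, h5⟩
    have h6 : numRelations g ≤ (R : ℕ∞) := by
      rw [← hR]
      exact le_sSup ⟨_, g, cofinite_of_gcd g h3, ⟨h1, rfl, h4⟩, h2, rfl⟩
    have hne : {x : ℕ∞ | ∃ s : Finset (MvPolynomial (Fin (n + 2 + 1)) ℚ),
        Ideal.span (s : Set (MvPolynomial (Fin (n + 2 + 1)) ℚ)) = toricIdeal g ∧
          x = (s.card : ℕ∞)}.Nonempty := by
      have hpos : ∀ i, 0 < g i := by
        intro i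
        have := h1.monotone (Fin.zero_le i)
        omega
      obtain ⟨s, hs, -⟩ :=
        Pool.Agent.W248.RG.upper_real Pool.Agent.W248.RG.comb n m hm0 g h2 hpos
      exact ⟨_, s, hs, rfl⟩
    obtain ⟨s, hs, hx⟩ := csInf_mem hne
    have h7 : (s.card : ℕ∞) ≤ (R : ℕ∞) := by
      rw [← hx]
      exact h6
    have h8 : s.card ≤ R := by exact_mod_cast h7
    exact (h5 s hs).trans (by exact_mod_cast h8)
  set M : ℕ := 2 * (2 * n) ^ (n + 1) with hM
  have hMpos : 0 < M := by positivity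
  set c1 : ℝ := ((2 * (n : ℝ) ^ (n + 1)) ^ α)⁻¹ with hc1
  set c2 : ℝ := ((M : ℝ) ^ α)⁻¹ with hc2
  have hc1pos : 0 < c1 := by positivity
  have hMpos' : (0 : ℝ) < (M : ℝ) := by exact_mod_cast hMpos
  have hc2pos : 0 < c2 := by positivity
  refine ⟨min c1 c2, lt_min hc1pos hc2pos, ?_⟩
  intro m hm
  have hm0 : 0 < m := by omega
  have hmα : (0 : ℝ) ≤ (m : ℝ) ^ α := by positivity
  obtain ⟨R, hR, hRup⟩ := hfin m hm0
  refine ⟨R, hR, ?_, hRup⟩
  rcases le_or_gt M m with hMm | hMm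
  · have h1 := hlow m R _ hm0 hR
      (Pool.Agent.W248.RG.lower_real Pool.Agent.W686.RG.FAM.main n m hn hMm)
    refine le_trans ?_ h1
    exact mul_le_mul_of_nonneg_right (min_le_left _ _) hmα
  · have h1 : (1 : ℝ) ≤ (R : ℝ) := by
      refine hlow m R 1 hm0 hR ?_
      obtain ⟨g, g1, g2, g3, g4, g5⟩ := Pool.Agent.W248.RG.small n m (by omega)
      exact ⟨g, g1, g2, g3, g4, fun s hs => by exact_mod_cast g5 s hs⟩
    refine le_trans ?_ h1
    have h2 : (m : ℝ) ^ α ≤ (M : ℝ) ^ α :=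
      Real.rpow_le_rpow (Nat.cast_nonneg m) (by exact_mod_cast hMm.le) hα0
    calc min c1 c2 * (m : ℝ) ^ α ≤ c2 * (M : ℝ) ^ α :=
          mul_le_mul (min_le_right _ _) h2 hmα hc2pos.le
      _ = 1 := by
          rw [hc2]
          exact inv_mul_cancel₀ (by positivity)

end Pool.Agent.Results.MP_c709de_al.GrowthOrder
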